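import Pool.Agent.MP_76d60e_lc.Defs
import Pool.Agent.MP_76d60e_lc.Rigid

section

set_option autoImplicit false

namespace Pool.Agent.MP_76d60e_lc

open Function

variable {V : Type} [DecidableEq V]

/-- Fed with the streams `r`, the program stops with answer `o` after sending exactly `s`. -/
def Local : Program V → (V → List Bool) → (V → List Bool) → Bool → Prop
  | Program.output b, _, s, o => o = b ∧ ∀ w, s w = []
  | Program.send w b k, r, s, o => ∃ rest, s w = b :: rest ∧ Local k r (update s w rest) o
  | Program.receive w k₀ k₁, r, s, o => ∃ rest,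
      (r w = false :: rest ∧ Local k₀ (update r w rest) s o) ∨
      (r w = true :: rest ∧ Local k₁ (update r w rest) s o)

/-- Consistency of a configuration with the remaining transcript `R`. -/
def Cons (p : V → Program V) (q R : V × V → List Bool) (out : V → Bool) : Prop :=
  ∀ u, Local (p u) (fun w => q (w, u) ++ R (w, u)) (fun w => R (u, w)) (out u)

lemma send_in (q R : V × V → List Bool) (u w : V) (b : Bool) (rest : List Bool)
    (h : R (u, w) = b :: rest) (e : V × V) :
    update q (u, w) (q (u, w) ++ [b]) e ++ update R (u, w) rest e = q e ++ R e := by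
  by_cases he : e = (u, w)
  · subst he; simp [h]
  · simp [update_of_ne he]

lemma send_out_self (R : V × V → List Bool) (u w : V) (rest : List Bool) :
    (fun a => update R (u, w) rest (u, a)) = update (fun a => R (u, a)) w rest := by
  funext a
  by_cases ha : a = w
  · subst ha; simp
  · have : (u, a) ≠ (u, w) := by simp [ha]
    simp [update_of_ne this, update_of_ne ha]

lemma send_out_other (R : V × V → List Bool) (u w v : V) (hv : v ≠ u) (rest : List Bool) :
    (fun a => update R (u, w) rest (v, a)) = fun a => R (v, a) := by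
  funext a
  have : (v, a) ≠ (u, w) := by simp [hv]
  simp [update_of_ne this]

lemma recv_in_self (q R : V × V → List Bool) (u w : V) (rest : List Bool) :
    (fun a => update q (w, u) rest (a, u) ++ R (a, u)) =
      update (fun a => q (a, u) ++ R (a, u)) w (rest ++ R (w, u)) := by
  funext a
  by_cases ha : a = w
  · subst ha; simp
  · have : (a, u) ≠ (w, u) := by simp [ha]
    simp [update_of_ne this, update_of_ne ha]

lemma recv_in_other (q R : V × V → List Bool) (u w v : V) (hv : v ≠ u) (rest : List Bool) :
    (fun a => update q (w, u) rest (a, v) ++ R (a, v)) = fun a => q (a, v) ++ R (a, v) := by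
  funext a
  have : (a, v) ≠ (w, u) := by simp [hv]
  simp [update_of_ne this]

lemma cons_send_iff (p : V → Program V) (q R : V × V → List Bool) (out : V → Bool)
    (u w : V) (b : Bool) (k : Program V) (hp : p u = Program.send w b k) (rest : List Bool)
    (h : R (u, w) = b :: rest) :
    Cons (update p u k) (update q (u, w) (q (u, w) ++ [b])) (update R (u, w) rest) out ↔
      Cons p q R out := by
  unfold Cons
  refine forall_congr' fun v => ?_
  simp only [send_in q R u w b rest h]
  by_cases hv : v = u
  · subst hv
    rw [send_out_self, update_self, hp]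
    simp only [Local, h, List.cons.injEq, true_and, exists_eq_left']
  · rw [send_out_other R u w v hv, update_of_ne hv]

lemma cons_recv_iff (p : V → Program V) (q R : V × V → List Bool) (out : V → Bool)
    (u w : V) (b : Bool) (rest : List Bool) (k₀ k₁ : Program V)
    (hp : p u = Program.receive w k₀ k₁) (h : q (w, u) = b :: rest) :
    Cons (update p u (if b then k₁ else k₀)) (update q (w, u) rest) R out ↔ Cons p q R out := by
  unfold Cons
  refine forall_congr' fun v => ?_
  by_cases hv : v = u
  · subst hv
    rw [recv_in_self, update_self, hp]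
    cases b <;> simp [Local, h]
  · rw [recv_in_other q R u w v hv, update_of_ne hv]

lemma sum_len_update [Fintype V] (R : V × V → List Bool) (e : V × V) (b : Bool)
    (rest : List Bool) (h : R e = b :: rest) :
    ∑ a, (R a).length = ∑ a, (update R e rest a).length + 1 := by
  have h1 : ∀ a, (R a).length = (update R e rest a).length + if a = e then 1 else 0 := by
    intro a
    by_cases ha : a = e
    · subst ha; simp [h]
    · simp [ha]
  rw [Finset.sum_congr rfl fun a _ => h1 a, Finset.sum_add_distrib]
  simp

lemma run_transcript [Fintype V] {G : SimpleGraph V} {p : V → Program V}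
    {q : V × V → List Bool} {c : ℕ} {out : V → Bool} (h : Run G p q c out) :
    ∃ R : V × V → List Bool, Cons p q R out ∧ ∑ a, (R a).length = c := by
  induction h with
  | finish q out => exact ⟨fun _ => [], fun u => by simp [Local], by simp⟩
  | send p q c out u w b k hp _ _ ih =>
    obtain ⟨R, hR, hc⟩ := ih
    have h1 : update R (u, w) (b :: R (u, w)) (u, w) = b :: R (u, w) := by simp
    refine ⟨update R (u, w) (b :: R (u, w)), ?_, ?_⟩
    · rw [← cons_send_iff p q _ out u w b k hp _ h1]
      simpa using hR
    · rw [sum_len_update _ _ _ _ h1]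
      simp [hc]
  | receive p q c out u w b rest k₀ k₁ hp hq _ ih =>
    obtain ⟨R, hR, hc⟩ := ih
    exact ⟨R, (cons_recv_iff p q R out u w b rest k₀ k₁ hp hq).1 hR, hc⟩

lemma run_unique [Fintype V] {G : SimpleGraph V} {p : V → Program V}
    {q : V × V → List Bool} {c : ℕ} {out : V → Bool} (h : Run G p q c out) :
    ∀ (R : V × V → List Bool) (out' : V → Bool), Cons p q R out' →
      out' = out ∧ ∑ a, (R a).length = c := by
  induction h with
  | finish q out =>
    intro R out' hR
    refine ⟨funext fun u => (hR u).1, ?_⟩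
    have : ∀ a, R a = [] := fun a => (hR a.1).2 a.2
    simp [this]
  | send p q c out u w b k hp _ _ ih =>
    intro R out' hR
    have h0 := hR u
    rw [hp] at h0
    obtain ⟨rest, h1, -⟩ := h0
    obtain ⟨h2, h3⟩ := ih _ out' ((cons_send_iff p q R out' u w b k hp rest h1).2 hR)
    exact ⟨h2, by rw [sum_len_update _ _ _ _ h1, h3]⟩
  | receive p q c out u w b rest k₀ k₁ hp hq _ ih =>
    intro R out' hR
    exact ih R out' ((cons_recv_iff p q R out' u w b rest k₀ k₁ hp hq).2 hR)

lemma run_det [Fintype V] {G : SimpleGraph V} {p : V → Program V}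
    {q : V × V → List Bool} {c c' : ℕ} {out out' : V → Bool} (h : Run G p q c out)
    (h' : Run G p q c' out') : c' = c ∧ out' = out := by
  obtain ⟨R, hR, hc⟩ := run_transcript h'
  obtain ⟨h1, h2⟩ := run_unique h R out' hR
  exact ⟨hc ▸ h2, h1⟩

end Pool.Agent.MP_76d60e_lc

end

section

set_option autoImplicit false

namespace Pool.Agent.MP_76d60e_lc

open Function

variable {V : Type} [DecidableEq V]

def sendList (w : V) : List Bool → Program V → Program V
  | [], k => k
  | b :: l, k => Program.send w b (sendList w l k)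

def recvN (w : V) : ℕ → (List Bool → Program V) → Program V
  | 0, k => k []
  | m + 1, k => Program.receive w (recvN w m fun l => k (false :: l))
      (recvN w m fun l => k (true :: l))

omit [DecidableEq V] in
lemma follows_sendList (w : V) (l : List Bool) (k : Program V) (pat : List (Bool × V))
    (h : Follows k pat) :
    Follows (sendList w l k) (List.replicate l.length (true, w) ++ pat) := by
  induction l with
  | nil => simpa [sendList] using h
  | cons b l ih => exact Follows.send _ _ _ _ ih

omit [DecidableEq V] in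
lemma follows_recvN (w : V) (m : ℕ) (k : List Bool → Program V) (pat : List (Bool × V))
    (h : ∀ l, Follows (k l) pat) :
    Follows (recvN w m k) (List.replicate m (false, w) ++ pat) := by
  induction m generalizing k with
  | zero => simpa [recvN] using h []
  | succ m ih =>
    exact Follows.receive _ _ _ _ (ih _ fun l => h _) (ih _ fun l => h _)

lemma run_transfer (G : SimpleGraph V) (u w : V) (huw : G.Adj u w) (l : List Bool) :
    ∀ (p : V → Program V) (ku : Program V) (kw : List Bool → Program V) (c : ℕ)
      (out : V → Bool), p u = sendList w l ku → p w = recvN u l.length kw →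
      Run G (update (update p u ku) w (kw l)) (fun _ => []) c out →
      Run G p (fun _ => []) (c + l.length) out := by
  have hne : u ≠ w := huw.ne
  induction l with
  | nil =>
    intro p ku kw c out h1 h2 h3
    simp only [sendList] at h1
    simp only [List.length_nil, recvN] at h2
    rw [← h1, update_eq_self, ← h2, update_eq_self] at h3
    simpa using h3
  | cons b l ih =>
    intro p ku kw c out h1 h2 h3
    simp only [sendList] at h1
    simp only [List.length_cons, recvN] at h2
    rw [List.length_cons, ← add_assoc]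
    refine Run.send _ _ _ _ u w b _ h1 huw ?_
    refine Run.receive _ _ _ _ w u b [] _ _
      (by rw [update_of_ne hne.symm]; exact h2) (by simp) ?_
    have e1 : update (update (fun _ : V × V => ([] : List Bool)) (u, w) ([] ++ [b])) (u, w) [] =
        fun _ => [] := by
      rw [update_idem]; exact update_eq_self _ _
    rw [e1]
    refine ih _ ku (fun l => kw (b :: l)) c out ?_ ?_ ?_
    · rw [update_of_ne hne, update_self]
    · rw [update_self]; cases b <;> rfl
    · convert h3 using 1
      funext v
      by_cases hv : v = w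
      · subst hv; simp
      · by_cases hv' : v = u
        · subst hv'; simp [update_of_ne hv]
        · simp [update_of_ne hv, update_of_ne hv']

section
variable {X ι : Type} (lab : ι → X → List Bool) (len : ι → ℕ)

/-- The program of vertex `v` with input `x` and flag `f` for a list of steps
`(sender, receiver, label index)`. -/
def compile (v : V) (x : X) : List (V × V × ι) → Bool → Program V
  | [], f => Program.output f
  | s :: rest, f =>
    if v = s.1 then sendList s.2.1 (f :: lab s.2.2 x) (compile v x rest f)
    else if v = s.2.1 then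
      recvN s.1 (len s.2.2 + 1) fun l => compile v x rest (f && decide (l = true :: lab s.2.2 x))
    else compile v x rest f

def sim (x : V → X) : List (V × V × ι) → (V → Bool) → (V → Bool)
  | [], f => f
  | s :: rest, f => sim x rest (update f s.2.1
      (f s.2.1 && decide (f s.1 :: lab s.2.2 (x s.1) = true :: lab s.2.2 (x s.2.1))))

def pattern (v : V) : List (V × V × ι) → List (Bool × V)
  | [] => []
  | s :: rest =>
    if v = s.1 then List.replicate (len s.2.2 + 1) (true, s.2.1) ++ pattern v rest
    else if v = s.2.1 then List.replicate (len s.2.2 + 1) (false, s.1) ++ pattern v rest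
    else pattern v rest

lemma follows_compile (hlen : ∀ i x, (lab i x).length = len i) (v : V) (x : X)
    (steps : List (V × V × ι)) :
    ∀ f, Follows (compile lab len v x steps f) (pattern len v steps) := by
  induction steps with
  | nil => intro f; exact Follows.output f
  | cons s rest ih =>
    intro f
    simp only [compile, pattern]
    split_ifs with h1 h2
    · have := follows_sendList s.2.1 (f :: lab s.2.2 x) _ _ (ih f)
      simpa [hlen] using this
    · exact follows_recvN _ _ _ _ fun l => ih _
    · exact ih f

lemma run_compile (G : SimpleGraph V) (hlen : ∀ i x, (lab i x).length = len i) (x : V → X)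
    (steps : List (V × V × ι)) (hadj : ∀ s ∈ steps, G.Adj s.1 s.2.1) :
    ∀ f : V → Bool, Run G (fun v => compile lab len v (x v) steps (f v)) (fun _ => [])
      (steps.map fun s => len s.2.2 + 1).sum (sim lab x steps f) := by
  induction steps with
  | nil => intro f; exact Run.finish _ _
  | cons s rest ih =>
    intro f
    have ha : G.Adj s.1 s.2.1 := hadj s (by simp)
    have hne : s.2.1 ≠ s.1 := ha.ne.symm
    have ih' := ih (fun t ht => hadj t (by simp [ht])) (update f s.2.1
      (f s.2.1 && decide (f s.1 :: lab s.2.2 (x s.1) = true :: lab s.2.2 (x s.2.1))))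
    have hl : (f s.1 :: lab s.2.2 (x s.1)).length = len s.2.2 + 1 := by simp [hlen]
    simp only [List.map_cons, List.sum_cons, sim]
    rw [add_comm, ← hl]
    refine run_transfer G s.1 s.2.1 ha _ _ (compile lab len s.1 (x s.1) rest (f s.1))
      (fun l => compile lab len s.2.1 (x s.2.1) rest
        (f s.2.1 && decide (l = true :: lab s.2.2 (x s.2.1)))) _ _ ?_ ?_ ?_
    · simp [compile]
    · simp [compile, hne, hlen]
    · convert ih' using 1
      funext v
      by_cases hv : v = s.2.1
      · subst hv; simp
      · by_cases hv' : v = s.1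
        · subst hv'; simp [update_of_ne hv]
        · simp [compile, hv, hv']

lemma sim_complete (x : V → X) (hx : ∀ u w, x u = x w) (steps : List (V × V × ι)) :
    sim lab x steps (fun _ => true) = fun _ => true := by
  induction steps with
  | nil => rfl
  | cons s rest ih =>
    simp only [sim, hx s.1 s.2.1, decide_true, Bool.and_self]
    rw [update_eq_self, ih]

def know : List (V × V × ι) → (V → List (V × V × ι)) → (V → List (V × V × ι))
  | [], K => K
  | s :: rest, K => know rest (update K s.2.1 (s :: (K s.1 ++ K s.2.1)))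

lemma sim_sound (x : V → X) (steps : List (V × V × ι)) :
    ∀ (f : V → Bool) (K : V → List (V × V × ι)),
      (∀ v, f v = true → ∀ s ∈ K v, lab s.2.2 (x s.1) = lab s.2.2 (x s.2.1)) →
      ∀ v, sim lab x steps f v = true →
        ∀ s ∈ know steps K v, lab s.2.2 (x s.1) = lab s.2.2 (x s.2.1) := by
  induction steps with
  | nil => intro f K h; exact h
  | cons s rest ih =>
    intro f K h
    apply ih
    intro v hv t ht
    by_cases hvs : v = s.2.1
    · subst hvs
      simp only [update_self, Bool.and_eq_true, decide_eq_true_eq, List.cons.injEq] at hv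
      simp only [update_self, List.mem_cons, List.mem_append] at ht
      rcases ht with rfl | ht | ht
      · exact hv.2.2
      · exact h _ hv.2.1 t ht
      · exact h _ hv.1 t ht
    · rw [update_of_ne hvs] at hv ht
      exact h v hv t ht

end

/-- A sound labelling scheme gives a static protocol in which everybody learns the answer. -/
lemma exists_protocol [Fintype V] {ι : Type} (G : SimpleGraph V) (n : ℕ)
    (lab : ι → (Fin n → Bool) → List Bool) (len : ι → ℕ)
    (hlen : ∀ i x, (lab i x).length = len i) (steps core : List (V × V × ι))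
    (hadj : ∀ s ∈ steps, G.Adj s.1 s.2.1)
    (hK : ∀ v, ∀ s ∈ core, s ∈ know steps (fun _ => []) v)
    (hsound : ∀ x : V → Fin n → Bool,
      (∀ s ∈ core, lab s.2.2 (x s.1) = lab s.2.2 (x s.2.1)) → ∀ u w, x u = x w) :
    ∃ P : V → (Fin n → Bool) → Program V,
      (∃ pat : V → List (Bool × V), ∀ v s, Follows (P v s) (pat v)) ∧
      ∀ x : V → Fin n → Bool,
        (∃ c out, Run G (fun v => P v (x v)) (fun _ => []) c out) ∧
        ∀ c out, Run G (fun v => P v (x v)) (fun _ => []) c out →
          c ≤ (steps.map fun s => len s.2.2 + 1).sum ∧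
          ∀ v, (out v = true ↔ ∀ u w, x u = x w) := by
  refine ⟨fun v s => compile lab len v s steps true,
    ⟨fun v => pattern len v steps, fun v s => follows_compile lab len hlen v s steps true⟩, ?_⟩
  intro x
  have hr := run_compile lab len G hlen x steps hadj (fun _ => true)
  refine ⟨⟨_, _, hr⟩, fun c out h => ?_⟩
  obtain ⟨h1, h2⟩ := run_det hr h
  refine ⟨h1.le, fun v => ⟨fun hv => ?_, fun hx => ?_⟩⟩
  · apply hsound
    intro s hs
    exact sim_sound lab x steps (fun _ => true) (fun _ => []) (by simp) v (h2 ▸ hv) s (hK v s hs)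
  · rw [h2, sim_complete lab x hx]

end Pool.Agent.MP_76d60e_lc

end

section

set_option autoImplicit false

namespace Pool.Agent.MP_76d60e_lc

def core : List (Fin 10 × Fin 10 × Option (Fin 15)) :=
  [(0, 1, some 0), (1, 2, some 1), (2, 3, some 2), (3, 4, some 3), (0, 4, some 4), (0, 5, some 5),
    (1, 6, some 6), (2, 7, some 7), (3, 8, some 8), (4, 9, some 9), (5, 7, some 10),
    (7, 9, some 11), (9, 6, some 12), (6, 8, some 13), (8, 5, some 14)]

def flood : List (Fin 10 × Fin 10 × Option (Fin 15)) :=
  [(2, 1, none), (6, 1, none), (3, 4, none), (9, 4, none), (7, 5, none), (8, 5, none),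
    (1, 0, none), (4, 0, none), (5, 0, none), (0, 1, none), (0, 4, none), (0, 5, none),
    (1, 2, none), (1, 6, none), (4, 3, none), (4, 9, none), (5, 7, none), (5, 8, none)]

instance petersenDec : DecidableRel petersen.Adj := by
  unfold petersen
  infer_instance

lemma steps_adj : ∀ s ∈ core ++ flood, petersen.Adj s.1 s.2.1 := by decide +kernel

lemma steps_know0 :
    (core.all fun s => (know (core ++ flood) (fun _ => []) 0).contains s) = true := by
  decide +kernel

lemma steps_know1 :
    (core.all fun s => (know (core ++ flood) (fun _ => []) 1).contains s) = true := by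
  decide +kernel

lemma steps_know2 :
    (core.all fun s => (know (core ++ flood) (fun _ => []) 2).contains s) = true := by
  decide +kernel

lemma steps_know3 :
    (core.all fun s => (know (core ++ flood) (fun _ => []) 3).contains s) = true := by
  decide +kernel

lemma steps_know4 :
    (core.all fun s => (know (core ++ flood) (fun _ => []) 4).contains s) = true := by
  decide +kernel

lemma steps_know5 :
    (core.all fun s => (know (core ++ flood) (fun _ => []) 5).contains s) = true := by
  decide +kernel

lemma steps_know6 :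
    (core.all fun s => (know (core ++ flood) (fun _ => []) 6).contains s) = true := by
  decide +kernel

lemma steps_know7 :
    (core.all fun s => (know (core ++ flood) (fun _ => []) 7).contains s) = true := by
  decide +kernel

lemma steps_know8 :
    (core.all fun s => (know (core ++ flood) (fun _ => []) 8).contains s) = true := by
  decide +kernel

lemma steps_know9 :
    (core.all fun s => (know (core ++ flood) (fun _ => []) 9).contains s) = true := by
  decide +kernel

lemma steps_know : ∀ v, ∀ s ∈ core, s ∈ know (core ++ flood) (fun _ => []) v := by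
  have h : ∀ v, (core.all fun s => (know (core ++ flood) (fun _ => []) v).contains s) = true := by
    intro v
    fin_cases v
    exacts [steps_know0, steps_know1, steps_know2, steps_know3, steps_know4, steps_know5,
      steps_know6, steps_know7, steps_know8, steps_know9]
  intro v s hs
  exact List.mem_of_elem_eq_true (List.all_eq_true.1 (h v) s hs)

end Pool.Agent.MP_76d60e_lc

end

section

set_option autoImplicit false

namespace Pool.Agent.MP_76d60e_lc

open Function

lemma exists_enc (s : ℕ) : ∃ enc : (Fin s → ℤ) → List Bool,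
    (∀ y, (enc y).length = s * (s + 4)) ∧
    ∀ y y', (∀ j, |y j| < 8 * 2 ^ s) → (∀ j, |y' j| < 8 * 2 ^ s) → enc y = enc y' → y = y' := by
  have hc : Fintype.card (Fin s → Fin (2 ^ (s + 4))) ≤ Fintype.card (Fin (s * (s + 4)) → Bool) := by
    simp only [Fintype.card_pi, Fintype.card_fin, Finset.prod_const, Finset.card_univ,
      Fintype.card_bool]
    rw [← pow_mul, mul_comm]
  obtain ⟨ψ⟩ := Function.Embedding.nonempty_of_card_le hc
  refine ⟨fun y => List.ofFn (ψ fun j => Fin.ofNat _ (y j + 8 * 2 ^ s).toNat), by simp, ?_⟩
  intro y y' hy hy' h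
  have h1 := ψ.injective (List.ofFn_injective h)
  funext j
  have h2 := congrArg Fin.val (congrFun h1 j)
  simp only [Fin.val_ofNat] at h2
  have h3 := abs_lt.1 (hy j)
  have h4 := abs_lt.1 (hy' j)
  have h5 : ((2 ^ (s + 4) : ℕ) : ℤ) = 16 * 2 ^ s := by push_cast; ring
  rw [Nat.mod_eq_of_lt (by omega), Nat.mod_eq_of_lt (by omega)] at h2
  omega

lemma exists_sphere (n s : ℕ) (h : n + 27 * s + 9 ≤ 3 * s * s) :
    ∃ (φ : (Fin n → Bool) → Fin s → Fin 3 → Fin (2 ^ s)) (C : Fin 3 → Fin 3 → ℕ),
      Injective φ ∧ ∀ x a b, ∑ j, (φ x j a : ℕ) * (φ x j b : ℕ) = C a b := by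
  classical
  let g : (Fin s → Fin 3 → Fin (2 ^ s)) → Fin 3 → Fin 3 → ℕ :=
    fun z a b => ∑ j, (z j a : ℕ) * (z j b : ℕ)
  let t : Finset (Fin 3 → Fin 3 → ℕ) :=
    Fintype.piFinset fun _ => Fintype.piFinset fun _ => Finset.range (2 ^ (3 * s + 1))
  have hmaps : ∀ z ∈ (Finset.univ : Finset (Fin s → Fin 3 → Fin (2 ^ s))), g z ∈ t := by
    intro z _
    simp only [t, Fintype.mem_piFinset, Finset.mem_range]
    intro a b
    have h1 : g z a b ≤ ∑ _j : Fin s, 2 ^ s * 2 ^ s :=
      Finset.sum_le_sum fun j _ => Nat.mul_le_mul (z j a).2.le (z j b).2.le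
    simp only [Finset.sum_const, Finset.card_univ, Fintype.card_fin, smul_eq_mul] at h1
    have h2 : s < 2 ^ s := Nat.lt_two_pow_self
    have h3 : 2 ^ (3 * s + 1) = 2 * (2 ^ s * (2 ^ s * 2 ^ s)) := by ring
    have h4 : s * (2 ^ s * 2 ^ s) ≤ 2 ^ s * (2 ^ s * 2 ^ s) := Nat.mul_le_mul_right _ h2.le
    have h5 : 0 < 2 ^ s * (2 ^ s * 2 ^ s) := by positivity
    omega
  have hne : t.Nonempty := ⟨_, hmaps (fun _ _ => ⟨0, by positivity⟩) (Finset.mem_univ _)⟩
  have hcard : t.card * 2 ^ n ≤ (Finset.univ : Finset (Fin s → Fin 3 → Fin (2 ^ s))).card := by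
    simp only [t, Fintype.card_piFinset, Finset.card_range, Finset.prod_const, Finset.card_univ,
      Fintype.card_fin, Fintype.card_pi]
    simp only [← pow_mul, ← pow_add]
    apply Nat.pow_le_pow_right (by norm_num)
    nlinarith
  obtain ⟨C, -, hC⟩ := Finset.exists_le_card_fiber_of_mul_le_card_of_maps_to hmaps hne hcard
  have hc : Fintype.card (Fin n → Bool) ≤
      Fintype.card (Finset.univ.filter fun z => g z = C) := by
    rw [Fintype.card_coe]
    simpa using hC
  obtain ⟨φ⟩ := Function.Embedding.nonempty_of_card_le hc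
  refine ⟨fun x => (φ x).1, C, fun x y hxy => φ.injective (Subtype.ext hxy), fun x a b => ?_⟩
  have := (Finset.mem_filter.1 (φ x).2).2
  exact congrFun (congrFun this a) b

def Uvec : Fin 15 → ℤ × ℤ × ℤ :=
  ![(1, 0, 0), (-2, -1, 0), (-1, 0, 1), (2, 1, 2), (0, 1, 0), (0, 0, 1), (-2, -1, -1),
    (-1, -1, 1), (0, 1, 2), (-1, 2, -2), (-1, 1, -2), (0, -2, 2), (0, -2, 1), (-2, -1, -2),
    (2, -1, 2)]

lemma Uvec_bound : ∀ e, |(Uvec e).1| ≤ 2 ∧ |(Uvec e).2.1| ≤ 2 ∧ |(Uvec e).2.2| ≤ 2 := by
  decide

lemma upper_protocol (n s : ℕ) (h : n + 27 * s + 9 ≤ 3 * s * s) :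
    ∃ P : Fin 10 → (Fin n → Bool) → Program (Fin 10),
      (∃ pat : Fin 10 → List (Bool × Fin 10), ∀ v s, Follows (P v s) (pat v)) ∧
      ∀ x : Fin 10 → Fin n → Bool,
        (∃ c out, Run petersen (fun v => P v (x v)) (fun _ => []) c out) ∧
        ∀ c out, Run petersen (fun v => P v (x v)) (fun _ => []) c out →
          c ≤ 15 * (s * (s + 4)) + 33 ∧
          ∀ v, (out v = true ↔ ∀ u w, x u = x w) := by
  obtain ⟨enc, henc, hinj⟩ := exists_enc s
  obtain ⟨φ, C, hφ, hC⟩ := exists_sphere n s h
  let val : Fin 15 → (Fin n → Bool) → Fin s → ℤ := fun e x j =>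
    (Uvec e).1 * (φ x j 0 : ℕ) + (Uvec e).2.1 * (φ x j 1 : ℕ) + (Uvec e).2.2 * (φ x j 2 : ℕ)
  have hval : ∀ e x j, |val e x j| < 8 * 2 ^ s := by
    intro e x j
    obtain ⟨b1, b2, b3⟩ := Uvec_bound e
    have c : ∀ a, |((φ x j a : ℕ) : ℤ)| ≤ 2 ^ s := by
      intro a
      rw [abs_of_nonneg (by positivity)]
      exact_mod_cast (φ x j a).2.le
    have hp : (0 : ℤ) < 2 ^ s := by positivity
    have d : ∀ (u : ℤ) a, |u| ≤ 2 → |u * ((φ x j a : ℕ) : ℤ)| ≤ 2 * 2 ^ s := by
      intro u a hu
      rw [abs_mul]
      exact mul_le_mul hu (c a) (abs_nonneg _) (by norm_num)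
    have d1 := abs_le.1 (d _ 0 b1)
    have d2 := abs_le.1 (d _ 1 b2)
    have d3 := abs_le.1 (d _ 2 b3)
    rw [abs_lt]
    simp only [val]
    constructor <;> linarith
  let lab : Option (Fin 15) → (Fin n → Bool) → List Bool := fun i x =>
    match i with
    | none => []
    | some e => enc (val e x)
  let len : Option (Fin 15) → ℕ := fun i =>
    match i with
    | none => 0
    | some _ => s * (s + 4)
  have hlen : ∀ i x, (lab i x).length = len i := by
    rintro (_ | e) x
    · rfl
    · exact henc _
  have hsum : ((core ++ flood).map fun t => len t.2.2 + 1).sum = 15 * (s * (s + 4)) + 33 := by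
    simp [core, flood, len]
    ring
  rw [← hsum]
  refine exists_protocol petersen n lab len hlen (core ++ flood) core steps_adj steps_know ?_
  intro x hx
  let z : Fin 10 → Fin s → Fin 3 → ℚ := fun v j a => ((φ (x v) j a : ℕ) : ℚ)
  have key : ∀ (e : Fin 15) (a b : Fin 10), (a, b, some e) ∈ core → ∀ j,
      ((Uvec e).1 : ℚ) * z a j 0 + (Uvec e).2.1 * z a j 1 + (Uvec e).2.2 * z a j 2 =
      ((Uvec e).1 : ℚ) * z b j 0 + (Uvec e).2.1 * z b j 1 + (Uvec e).2.2 * z b j 2 := by
    intro e a b hm j
    have h1 := congrFun (hinj _ _ (hval e (x a)) (hval e (x b)) (hx _ hm)) j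
    simp only [val] at h1
    simp only [z]
    exact_mod_cast h1
  have hco : ∀ j, 0 ≤ Qtot (fun v => z v j) ∧
      (Qtot (fun v => z v j) = 0 → ∀ v, z v j = z 0 j) := by
    intro j
    apply coord (fun v => z v j)
    · simpa [Uvec] using key 0 0 1 (by decide) j
    · simpa [Uvec] using key 1 1 2 (by decide) j
    · simpa [Uvec] using key 2 2 3 (by decide) j
    · simpa [Uvec] using key 3 3 4 (by decide) j
    · simpa [Uvec] using key 4 0 4 (by decide) j
    · simpa [Uvec] using key 5 0 5 (by decide) j
    · simpa [Uvec] using key 6 1 6 (by decide) j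
    · simpa [Uvec] using key 7 2 7 (by decide) j
    · simpa [Uvec] using key 8 3 8 (by decide) j
    · simpa [Uvec] using key 9 4 9 (by decide) j
    · simpa [Uvec] using key 10 5 7 (by decide) j
    · simpa [Uvec] using key 11 7 9 (by decide) j
    · simpa [Uvec] using key 12 9 6 (by decide) j
    · simpa [Uvec] using key 13 6 8 (by decide) j
    · simpa [Uvec] using key 14 8 5 (by decide) j
  have hs := sum_Qtot z (fun a b => (C a b : ℚ)) (by
    intro v a b
    simp only [z]
    exact_mod_cast hC (x v) a b)
  have hz := (Finset.sum_eq_zero_iff_of_nonneg fun j _ => (hco j).1).1 hs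
  have h0 : ∀ v, x v = x 0 := by
    intro v
    apply hφ
    funext j a
    have := congrFun ((hco j).2 (hz j (Finset.mem_univ j)) v) a
    simp only [z, Nat.cast_inj] at this
    exact Fin.ext this
  intro u w
  rw [h0 u, h0 w]

end Pool.Agent.MP_76d60e_lc

end

section

set_option autoImplicit false

namespace Pool.Agent.MP_76d60e_lc

open Function

/-- Counting families of bit strings of bounded total length. -/
lemma card_le_of_short {α ι : Type} [Fintype ι] [DecidableEq ι] (s : Finset α)
    (F : α → ι → List Bool) (m : ℕ) (hinj : Set.InjOn F s)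
    (hlen : ∀ a ∈ s, ∑ i, (F a i).length ≤ m) :
    s.card ≤ (m + 1) ^ Fintype.card ι * 2 ^ m := by
  classical
  let L : α → List (List Bool) := fun a => (Finset.univ : Finset ι).toList.map (F a)
  have hL : ∀ a, (L a).flatten.length = ∑ i, (F a i).length := by
    intro a
    simp only [L, List.length_flatten, List.map_map]
    rw [Finset.sum_map_toList]
    rfl
  let g : α → (ι → ℕ) × (Fin m → Bool) :=
    fun a => (fun i => (F a i).length, fun j => (L a).flatten.getD j false)
  let t : Finset ((ι → ℕ) × (Fin m → Bool)) :=
    (Fintype.piFinset fun _ => Finset.range (m + 1)) ×ˢ Finset.univ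
  have ht : t.card = (m + 1) ^ Fintype.card ι * 2 ^ m := by
    simp [t, Finset.card_product, Fintype.card_piFinset]
  rw [← ht]
  apply Finset.card_le_card_of_injOn g
  · intro a ha
    simp only [t, g, Finset.coe_product, Set.mem_prod, Finset.mem_coe, Fintype.mem_piFinset,
      Finset.mem_range, Finset.mem_univ, and_true]
    intro i
    have h1 := hlen a ha
    have h2 : (F a i).length ≤ ∑ i, (F a i).length :=
      Finset.single_le_sum (f := fun i => (F a i).length) (fun _ _ => Nat.zero_le _)
        (Finset.mem_univ i)
    omega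
  · intro a ha b hb hab
    simp only [g, Prod.mk.injEq] at hab
    obtain ⟨h1, h2⟩ := hab
    have h1' : ∀ i, (F a i).length = (F b i).length := fun i => congrFun h1 i
    have h3 : (L a).flatten.length = (L b).flatten.length := by
      rw [hL, hL]; exact Finset.sum_congr rfl fun i _ => h1' i
    have h4 : (L a).flatten = (L b).flatten := by
      apply List.ext_getElem h3
      intro j hj1 hj2
      have hjm : j < m := by
        have := hlen a ha
        rw [← hL] at this
        omega
      have := congrFun h2 ⟨j, hjm⟩
      simpa [List.getD_eq_getElem?_getD, List.getElem?_eq_getElem hj1,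
        List.getElem?_eq_getElem hj2, -List.length_flatten] using this
    have h5 : L a = L b := by
      rw [List.eq_iff_flatten_eq]
      refine ⟨h4, ?_⟩
      simp only [L, List.map_map]
      exact List.map_congr_left fun i _ => h1' i
    apply hinj ha hb
    funext i
    have := List.map_inj_left.1 h5 i (by simp)
    exact this

variable {V : Type} [DecidableEq V] [Fintype V]

/-- The cut-and-paste lower bound at single-vertex cuts. -/
lemma lower_bound [Nontrivial V] (G : SimpleGraph V) (n cost m : ℕ)
    (P : V → (Fin n → Bool) → Program V)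
    (hP : ∀ x : V → Fin n → Bool,
      (∃ c out, Run G (fun v => P v (x v)) (fun _ => []) c out) ∧
      ∀ c out, Run G (fun v => P v (x v)) (fun _ => []) c out →
        c ≤ cost ∧ ((∀ v, out v = true) ↔ ∀ u w, x u = x w))
    (hm : Fintype.card V * ((m + 1) ^ (2 * Fintype.card V) * 2 ^ m) < 2 ^ n) :
    Fintype.card V * (m + 1) ≤ 2 * cost := by
  classical
  have h1 : ∀ s : Fin n → Bool, ∃ R : V × V → List Bool,
      Cons (fun v => P v s) (fun _ => []) R (fun _ => true) ∧ ∑ a, (R a).length ≤ cost := by
    intro s
    obtain ⟨⟨c, out, hr⟩, h2⟩ := hP (fun _ => s)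
    obtain ⟨h3, h4⟩ := h2 c out hr
    have h5 : out = fun _ => true := funext (h4.2 fun _ _ => rfl)
    obtain ⟨R, hR, hc⟩ := run_transcript hr
    exact ⟨R, h5 ▸ hR, hc ▸ h3⟩
  choose R hR hc using h1
  let F : V → (Fin n → Bool) → (V ⊕ V) → List Bool :=
    fun v s => Sum.elim (fun w => R s (v, w)) (fun w => R s (w, v))
  have hinj : ∀ v, Injective (F v) := by
    intro v s t hst
    have e1 : ∀ w, R s (v, w) = R t (v, w) := fun w => congrFun hst (Sum.inl w)
    have e2 : ∀ w, R s (w, v) = R t (w, v) := fun w => congrFun hst (Sum.inr w)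
    obtain ⟨⟨c, out, hr⟩, h2⟩ := hP (update (fun _ => t) v s)
    have h3 : Cons (fun u => P u (update (fun _ => t) v s u)) (fun _ => []) (R t)
        (fun _ => true) := by
      intro u
      by_cases hu : u = v
      · subst hu
        have := hR s u
        simpa [e1, e2] using this
      · have := hR t u
        simpa [update_of_ne hu] using this
    have h4 := (run_unique hr _ _ h3).1
    have h5 := (h2 c out hr).2.1 (fun u => by rw [← h4])
    obtain ⟨u, hu⟩ := exists_ne v
    have := h5 v u
    simpa [update_of_ne hu] using this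
  let a : V → (Fin n → Bool) → ℕ := fun v s => ∑ i, (F v s i).length
  have hbad : ∀ v, (Finset.univ.filter fun s => a v s ≤ m).card ≤
      (m + 1) ^ (2 * Fintype.card V) * 2 ^ m := by
    intro v
    have := card_le_of_short (Finset.univ.filter fun s => a v s ≤ m) (F v) m
      (hinj v).injOn (fun s hs => (Finset.mem_filter.1 hs).2)
    simpa [two_mul] using this
  have hex : ∃ s, ∀ v, m < a v s := by
    by_contra hcon
    push Not at hcon
    have hsub : (Finset.univ : Finset (Fin n → Bool)) ⊆
        Finset.univ.biUnion fun v => Finset.univ.filter fun s => a v s ≤ m := by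
      intro s _
      obtain ⟨v, hv⟩ := hcon s
      simp only [Finset.mem_biUnion, Finset.mem_univ, true_and, Finset.mem_filter]
      exact ⟨v, hv⟩
    have h6 := Finset.card_le_card hsub
    have h7 := Finset.card_biUnion_le_card_mul (Finset.univ : Finset V)
      (fun v => Finset.univ.filter fun s => a v s ≤ m) _ (fun v _ => hbad v)
    simp only [Finset.card_univ, Fintype.card_pi, Fintype.card_bool, Finset.prod_const,
      Fintype.card_fin] at h6 h7
    omega
  obtain ⟨s, hs⟩ := hex
  have h8 : ∑ v, a v s = 2 * ∑ e, (R s e).length := by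
    simp only [a, F, Fintype.sum_sum_type, Sum.elim_inl, Sum.elim_inr, Finset.sum_add_distrib]
    rw [Fintype.sum_prod_type, two_mul]
    congr 1
    exact Finset.sum_comm
  have h9 : Fintype.card V * (m + 1) ≤ ∑ v, a v s := by
    have := Finset.card_nsmul_le_sum Finset.univ (fun v => a v s) (m + 1) (fun v _ => hs v)
    simpa using this
  have := hc s
  omega

end Pool.Agent.MP_76d60e_lc

end

section

set_option autoImplicit false

namespace Pool.Agent.MP_76d60e_lc

open SimpleGraph

lemma petersen_connected : petersen.Connected := by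
  rw [connected_iff_exists_forall_reachable]
  have a : ∀ u v : Fin 10, petersen.Adj u v → petersen.Reachable u v := fun _ _ h => h.reachable
  have h1 := a 0 1 (by decide)
  have h4 := a 0 4 (by decide)
  have h5 := a 0 5 (by decide)
  refine ⟨0, fun v => ?_⟩
  fin_cases v
  exacts [Reachable.refl _, h1, h1.trans (a 1 2 (by decide)), h4.trans (a 4 3 (by decide)), h4, h5,
    h1.trans (a 1 6 (by decide)), h5.trans (a 5 7 (by decide)), h5.trans (a 5 8 (by decide)),
    h4.trans (a 4 9 (by decide))]

def nbrs : Fin 10 → List (Fin 10) :=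
  ![[1, 4, 5], [0, 2, 6], [1, 3, 7], [2, 4, 8], [0, 3, 9], [0, 7, 8], [1, 8, 9], [2, 5, 9],
    [3, 5, 6], [4, 6, 7]]

lemma mem_nbrs : ∀ u v, petersen.Adj u v → v ∈ nbrs u := by decide +kernel

def noWalk (start : Fin 10) : ℕ → List (Fin 10) → Fin 10 → Bool
  | 0, _, cur => cur != start
  | k + 1, vis, cur => (nbrs cur).all fun w => vis.contains w || noWalk start k (w :: vis) w

lemma noWalk_spec (start : Fin 10) : ∀ (cur : Fin 10) (p : petersen.Walk cur start)
    (vis : List (Fin 10)), p.support.tail.Nodup → (∀ w ∈ p.support.tail, w ∉ vis) →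
    noWalk start p.length vis cur = false := by
  intro cur p
  induction p with
  | nil => intro vis _ _; simp [noWalk]
  | @cons u v t h p ih =>
    intro vis h1 h2
    simp only [Walk.support_cons, List.tail_cons] at h1 h2
    rw [← Walk.cons_tail_support] at h1 h2
    simp only [List.nodup_cons] at h1
    have h3 := ih (v :: vis) h1.2 (by
      intro w hw hw'
      rcases List.mem_cons.1 hw' with rfl | hw'
      · exact h1.1 hw
      · exact h2 w (List.mem_cons_of_mem _ hw) hw')
    simp only [Walk.length_cons, noWalk, List.all_eq_false]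
    refine ⟨v, mem_nbrs _ _ h, ?_⟩
    have h4 : v ∉ vis := h2 v (by simp)
    simp [h3, h4]

lemma noWalk_all : ((List.finRange 10).all fun a => noWalk a 10 [] a) = true := by
  decide +kernel

lemma petersen_not_ham : ¬ petersen.IsHamiltonian := by
  intro h
  obtain ⟨a, p, hp⟩ := h (by simp)
  have h1 := noWalk_spec a a p [] hp.isCycle.support_nodup (by simp)
  have h2 : p.length = 10 := by simpa using hp.length_eq
  have h3 := List.all_eq_true.1 noWalk_all a (by simp)
  rw [h2, h3] at h1
  exact absurd h1 (by simp)

end Pool.Agent.MP_76d60e_lc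

end

section

set_option autoImplicit false

namespace Pool.Agent.MP_76d60e_lc

open Filter Topology

lemma bounds (static allKnow : Bool) (n : ℕ) :
    5 * n ≤ minBits petersen static allKnow n + 200 * Nat.sqrt n + 20 ∧
    minBits petersen static allKnow n ≤ 5 * n + 390 * Nat.sqrt n + 2508 := by
  have ha1 := Nat.sqrt_le' (n / 3)
  have ha2 := Nat.lt_succ_sqrt' (n / 3)
  have ha3 : Nat.sqrt (n / 3) ≤ Nat.sqrt n := Nat.sqrt_le_sqrt (Nat.div_le_self _ _)
  generalize Nat.sqrt (n / 3) = a at ha1 ha2 ha3
  have hd1 : 3 * (n / 3) ≤ n := Nat.mul_div_le n 3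
  have hd2 : n < 3 * (n / 3) + 3 := by omega
  obtain ⟨P, hP1, hP2⟩ := upper_protocol n (a + 11) (by
    simp only [Nat.succ_eq_add_one] at ha2
    nlinarith)
  have hmem : 15 * ((a + 11) * (a + 11 + 4)) + 33 ∈ {cost : ℕ |
      ∃ P : Fin 10 → (Fin n → Bool) → Program (Fin 10),
      (static = true → ∃ pattern : Fin 10 → List (Bool × Fin 10),
        ∀ v s, Follows (P v s) (pattern v)) ∧
      ∀ x : Fin 10 → Fin n → Bool,
        (∃ c out, Run petersen (fun v => P v (x v)) (fun _ => []) c out) ∧
        ∀ c out, Run petersen (fun v => P v (x v)) (fun _ => []) c out →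
          c ≤ cost ∧
          if allKnow then ∀ v, (out v = true ↔ ∀ u w, x u = x w)
          else ((∀ v, out v = true) ↔ ∀ u w, x u = x w)} := by
    refine ⟨P, fun _ => hP1, fun x => ⟨(hP2 x).1, fun c out h => ?_⟩⟩
    obtain ⟨h1, h2⟩ := (hP2 x).2 c out h
    refine ⟨h1, ?_⟩
    cases allKnow
    · simp only [Bool.false_eq_true, if_false]
      exact ⟨fun h3 => (h2 0).1 (h3 0), fun h3 v => (h2 v).2 h3⟩
    · simpa using h2
  constructor
  · obtain ⟨Q, -, hQ⟩ := Nat.sInf_mem ⟨_, hmem⟩
    have hr := Nat.lt_succ_sqrt' n
    generalize Nat.sqrt n = r at hr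
    by_cases hn : n < 40 * r + 4
    · omega
    have hlow := lower_bound petersen n (minBits petersen static allKnow n) (n - 40 * r - 4) Q
      (by
        intro x
        refine ⟨(hQ x).1, fun c out h => ?_⟩
        obtain ⟨h1, h2⟩ := (hQ x).2 c out h
        refine ⟨h1, ?_⟩
        cases allKnow
        · simpa using h2
        · simp only [if_true] at h2
          exact ⟨fun h3 => (h2 0).1 (h3 0), fun h3 v => (h2 v).2 h3⟩)
      (by
        simp only [Fintype.card_fin]
        have h1 : r + 1 ≤ 2 ^ r := Nat.lt_two_pow_self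
        have h2 : n - 40 * r - 4 + 1 ≤ (2 ^ r) ^ 2 := by
          have := Nat.pow_le_pow_left h1 2
          simp only [Nat.succ_eq_add_one] at hr
          omega
        have h3 := Nat.pow_le_pow_left h2 (2 * 10)
        have h4 : 2 ^ n = 16 * (((2 ^ r) ^ 2) ^ (2 * 10) * 2 ^ (n - 40 * r - 4)) := by
          have : n = 4 + (r * 2 * (2 * 10) + (n - 40 * r - 4)) := by omega
          rw [← pow_mul, ← pow_mul, ← pow_add, show (16 : ℕ) = 2 ^ 4 by norm_num, ← pow_add]
          congr 1
          omega
        have h5 := Nat.mul_le_mul_right (2 ^ (n - 40 * r - 4)) h3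
        have h6 : 0 < ((2 ^ r) ^ 2) ^ (2 * 10) * 2 ^ (n - 40 * r - 4) := by positivity
        omega)
    simp only [Fintype.card_fin] at hlow
    omega
  · have h1 : minBits petersen static allKnow n ≤ _ := Nat.sInf_le hmem
    nlinarith

lemma tendsto_sqrt_div : Tendsto (fun n : ℕ => (Nat.sqrt n : ℝ) / n) atTop (𝓝 0) := by
  have h : Tendsto (fun n : ℕ => (√(n : ℝ))⁻¹) atTop (𝓝 0) :=
    tendsto_inv_atTop_zero.comp (Real.tendsto_sqrt_atTop.comp tendsto_natCast_atTop_atTop)
  refine squeeze_zero (fun n => by positivity) (fun n => ?_) h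
  rw [← Real.sqrt_div_self]
  exact div_le_div_of_nonneg_right Real.nat_sqrt_le_real_sqrt (by positivity)

lemma tendsto_minBits (static allKnow : Bool) :
    Tendsto (fun n : ℕ => (minBits petersen static allKnow n : ℝ) / n) atTop
      (𝓝 ((10 : ℝ) / 2)) := by
  have h0 : Tendsto (fun n : ℕ => (1 : ℝ) / n) atTop (𝓝 0) := tendsto_one_div_atTop_nhds_zero_nat
  have hl : Tendsto (fun n : ℕ => (5 : ℝ) - 200 * ((Nat.sqrt n : ℝ) / n) - 20 * (1 / n)) atTop
      (𝓝 ((10 : ℝ) / 2)) := by
    have := ((tendsto_const_nhds (x := (5 : ℝ))).sub (tendsto_sqrt_div.const_mul 200)).sub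
      (h0.const_mul 20)
    convert this using 2
    norm_num
  have hu : Tendsto (fun n : ℕ => (5 : ℝ) + 390 * ((Nat.sqrt n : ℝ) / n) + 2508 * (1 / n)) atTop
      (𝓝 ((10 : ℝ) / 2)) := by
    have := ((tendsto_const_nhds (x := (5 : ℝ))).add (tendsto_sqrt_div.const_mul 390)).add
      (h0.const_mul 2508)
    convert this using 2
    norm_num
  refine tendsto_of_tendsto_of_tendsto_of_le_of_le' hl hu ?_ ?_
  · filter_upwards [eventually_gt_atTop 0] with n hn
    have hn' : (0 : ℝ) < n := by exact_mod_cast hn
    have h1 : (5 : ℝ) * n ≤ minBits petersen static allKnow n + 200 * Nat.sqrt n + 20 := by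
      exact_mod_cast (bounds static allKnow n).1
    rw [le_div_iff₀ hn']
    field_simp
    linarith
  · filter_upwards [eventually_gt_atTop 0] with n hn
    have hn' : (0 : ℝ) < n := by exact_mod_cast hn
    have h1 : (minBits petersen static allKnow n : ℝ) ≤ 5 * n + 390 * Nat.sqrt n + 2508 := by
      exact_mod_cast (bounds static allKnow n).2
    rw [div_le_iff₀ hn']
    field_simp
    linarith

end Pool.Agent.MP_76d60e_lc

end
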